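import Pool.Agent.Y53.FP.Final
import Pool.Agent.H5S_Disc.Ext

/-!
MP_7b119f_an. There is a countable, totally bounded metric space `M`, all of whose points are isolated,
such that for every `p` in `(0, 1]` and every base point the Lipschitz free `p`-space over `M` fails the
approximation property.

The space: let `C` be the compact subset of a Banach space `X` without the approximation property for which
the Lipschitz free `p`-space fails the approximation property over every metric space through which the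
inclusion `C → X` factors by Lipschitz maps. Let `F n` be a finite `2⁻ⁿ`-net of `C`. Then
`M = ⋃ n, F n × {2⁻ⁿ}` is discrete, its union `N` with `C × {0}` contains it as a dense set, and the inclusion
of `C` factors through `N`. The free spaces over `M` and over `N` agree.
-/

set_option autoImplicit false

open Set Filter Topology
open Pool.Agent.H548R3.PFree Pool.Agent.H548R3.NoAP Pool.Agent.Y53.FP

namespace Pool.Agent.Results.MP_7b119f_an.IncompleteDiscreteNoAP

variable {X : Type} [MetricSpace X]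

/-- the discrete set -/
def MM (F : ℕ → Set X) : Set (X × ℝ) := {q | ∃ n : ℕ, q.1 ∈ F n ∧ q.2 = (1 / 2 : ℝ) ^ n}

/-- the set with its limit points -/
def NN (C : Set X) (F : ℕ → Set X) : Set (X × ℝ) := {q | q.1 ∈ C ∧ q.2 = 0} ∪ MM F

omit [MetricSpace X] in
lemma countable_MM (F : ℕ → Set X) (hF : ∀ n, (F n).Finite) : (MM F).Countable := by
  have h1 : MM F ⊆ ⋃ n : ℕ, (F n) ×ˢ {(1 / 2 : ℝ) ^ n} := by
    rintro ⟨a, t⟩ ⟨n, h1, h2⟩
    exact mem_iUnion.2 ⟨n, h1, h2⟩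
  exact (countable_iUnion fun n => ((hF n).countable.prod (countable_singleton _))).mono h1

lemma totallyBounded_MM (C : Set X) (hC : IsCompact C) (F : ℕ → Set X) (hFC : ∀ n, F n ⊆ C) :
    TotallyBounded (MM F) := by
  have h1 : MM F ⊆ C ×ˢ Icc (0 : ℝ) 1 := by
    rintro ⟨a, t⟩ ⟨n, h1, h2⟩
    refine ⟨hFC n h1, ?_⟩
    show t ∈ _
    simp only at h2
    rw [h2]
    exact ⟨by positivity, pow_le_one₀ (by norm_num) (by norm_num)⟩
  exact (hC.prod isCompact_Icc).totallyBounded.subset h1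

/-- the levels are separated -/
lemma level_sep (m n : ℕ) (h : |(1 / 2 : ℝ) ^ m - (1 / 2 : ℝ) ^ n| < (1 / 2 : ℝ) ^ (n + 1)) : m = n := by
  rcases lt_trichotomy m n with h1 | h1 | h1
  · exfalso
    have h2 : (1 / 2 : ℝ) ^ n ≤ (1 / 2 : ℝ) ^ (m + 1) :=
      pow_le_pow_of_le_one (by norm_num) (by norm_num) h1
    have h3 := (abs_lt.1 h).2
    rw [pow_succ] at h2 h3
    have h4 : (0 : ℝ) < (1 / 2 : ℝ) ^ n := by positivity
    linarith
  · exact h1
  · exfalso
    have h2 : (1 / 2 : ℝ) ^ m ≤ (1 / 2 : ℝ) ^ (n + 1) :=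
      pow_le_pow_of_le_one (by norm_num) (by norm_num) h1
    have h3 := (abs_lt.1 h).1
    rw [pow_succ] at h2 h3
    linarith

lemma isolated_MM (F : ℕ → Set X) (hF : ∀ n, (F n).Finite) (x : MM F) :
    ∃ r : ℝ, 0 < r ∧ ∀ y : MM F, dist y x < r → y = x := by
  obtain ⟨⟨a, t⟩, n, hn1, hn2⟩ := x
  simp only at hn1 hn2
  subst hn2
  have hA : ((F n) \ {a}).Finite := (hF n).subset sdiff_subset
  have h1 : ((F n) \ {a})ᶜ ∈ 𝓝 a := hA.isClosed.isOpen_compl.mem_nhds (fun h => h.2 rfl)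
  obtain ⟨r, hr, hr2⟩ := Metric.mem_nhds_iff.1 h1
  refine ⟨min r ((1 / 2 : ℝ) ^ (n + 1)), lt_min hr (by positivity), ?_⟩
  rintro ⟨⟨b, s⟩, m, hm1, hm2⟩ hy
  simp only at hm1 hm2
  subst hm2
  rw [Subtype.dist_eq, Prod.dist_eq] at hy
  simp only [lt_min_iff, max_lt_iff] at hy
  have hmn : m = n := level_sep m n (by rw [← Real.dist_eq]; exact hy.2.2)
  subst hmn
  have hb : b ∈ Metric.ball a r := hy.1.1
  have hb2 := hr2 hb
  have hba : b = a := by
    by_contra hne
    exact hb2 ⟨hm1, hne⟩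
  subst hba
  rfl

/-- the inclusion of the discrete set -/
def inc (C : Set X) (F : ℕ → Set X) (x : MM F) : NN C F := ⟨x, Or.inr x.2⟩

lemma isometry_inc (C : Set X) (F : ℕ → Set X) : Isometry (inc C F) := fun _ _ => rfl

lemma dense_inc (C : Set X) (F : ℕ → Set X)
    (hF : ∀ n : ℕ, ∀ c ∈ C, ∃ b ∈ F n, dist c b < (1 / 2 : ℝ) ^ n) : DenseRange (inc C F) := by
  rw [Metric.denseRange_iff]
  rintro ⟨⟨c, t⟩, h⟩ r hr
  rcases h with ⟨h1, h2⟩ | h
  · simp only at h1 h2
    subst h2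
    obtain ⟨n, hn⟩ := exists_pow_lt_of_lt_one hr (by norm_num : (1 / 2 : ℝ) < 1)
    obtain ⟨b, hb, hcb⟩ := hF n c h1
    refine ⟨⟨(b, (1 / 2 : ℝ) ^ n), n, hb, rfl⟩, ?_⟩
    rw [Subtype.dist_eq]
    show dist ((c, 0) : X × ℝ) (b, (1 / 2 : ℝ) ^ n) < r
    rw [Prod.dist_eq]
    refine max_lt (hcb.trans hn) ?_
    show dist (0 : ℝ) ((1 / 2 : ℝ) ^ n) < r
    rw [Real.dist_eq, zero_sub, abs_neg, abs_of_pos (by positivity)]
    exact hn
  · refine ⟨⟨(c, t), h⟩, ?_⟩
    show dist (⟨(c, t), Or.inr h⟩ : NN C F) ⟨(c, t), Or.inr h⟩ < r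
    rw [dist_self]
    exact hr

/-- **MP_7b119f_an, negative answer to Q1 and Q2.** -/
theorem result :
    ∃ (M : Type) (_ : MetricSpace M), Nonempty M ∧ Countable M ∧ TotallyBounded (univ : Set M) ∧
      (∀ x : M, ∃ r : ℝ, 0 < r ∧ ∀ y : M, dist y x < r → y = x) ∧
      ∀ (o : M) (p : ℝ), 0 < p → p ≤ 1 → FreeFailsAP p M o := by
  obtain ⟨⟨C, hCc, hCh, hC⟩, -⟩ := main_X E ap_E
  have h1 : ∀ n : ℕ, ∃ F : Set E, F ⊆ C ∧ F.Finite ∧ ∀ c ∈ C, ∃ b ∈ F, dist c b < (1 / 2 : ℝ) ^ n := by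
    intro n
    obtain ⟨t, ht1, ht2, ht3⟩ := hCc.finite_cover_balls (e := (1 / 2 : ℝ) ^ n) (by positivity)
    refine ⟨t, ht1, ht2, fun c hc => ?_⟩
    have h2 := ht3 hc
    simp only [mem_iUnion, Metric.mem_ball, exists_prop] at h2
    exact h2
  choose F hF1 hF2 hF3 using h1
  refine ⟨MM F, inferInstance, ?_, (countable_MM F hF2).to_subtype, ?_, isolated_MM F hF2, ?_⟩
  · obtain ⟨g⟩ := hCh
    obtain ⟨b, hb, -⟩ := hF3 0 (g.symm fun _ => true) (g.symm fun _ => true).2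
    exact ⟨⟨(b, (1 / 2 : ℝ) ^ 0), 0, hb, rfl⟩⟩
  · have h2 := totallyBounded_MM C hCc F hF1
    have h3 := totallyBounded_preimage (isometry_subtype_coe (s := MM F)).isUniformInducing h2
    rwa [Subtype.coe_preimage_self] at h3
  · intro o p h0 h1
    have hN : FreeFailsAP p (NN C F) (inc C F o) :=
      hC (NN C F) (inc C F o) (fun c => ⟨((c : E), 0), Or.inl ⟨c.2, rfl⟩⟩) (fun q => (q : E × ℝ).1)
        ⟨1, LipschitzWith.of_dist_le_mul fun a b => by
          rw [Subtype.dist_eq, Subtype.dist_eq, Prod.dist_eq]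
          show max (dist (a : E) b) (dist (0 : ℝ) 0) ≤ _
          rw [dist_self, NNReal.coe_one, one_mul]
          exact max_le le_rfl dist_nonneg⟩
        ⟨1 * 1, LipschitzWith.prod_fst.comp (LipschitzWith.subtype_val _)⟩ (fun _ => rfl) p h0 h1
    have hp : Fact (0 < p ∧ p ≤ 1) := ⟨h0, h1⟩
    refine ⟨⟨FF p (MM F), inferInstance, inferInstance, fun x => cl x o, isLipschitzFree o⟩, ?_⟩
    intro Z _ _ δ h
    obtain ⟨δ', h', -⟩ := Pool.Agent.H5S_Disc.exists_ext h0 (inc C F) (isometry_inc C F)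
      (dense_inc C F hF3) o Z δ h
    exact hN.2 Z δ' h'

end Pool.Agent.Results.MP_7b119f_an.IncompleteDiscreteNoAP
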